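import Pool.Agent.Q109.Rho.Defs

/-! Counting non-backtracking walks; existence of the growth rate. -/

set_option autoImplicit false

namespace Q109.Rho

open Filter Finset

variable {V : Type} [Fintype V] [DecidableEq V] (G : SimpleGraph V)

open Classical in
/-- number of non-backtracking walks with `l + 1` edges starting with the dart `(u, v)` -/
noncomputable def cnt : ℕ → V → V → ℕ
  | 0, _, _ => 1
  | l + 1, u, v => ∑ w ∈ univ.filter (fun w => G.Adj v w ∧ w ≠ u), cnt l v w

open Classical in
lemma nb_eq_card (l : ℕ) : nb G l = (univ.filter (fun w : Fin (l + 1) → V => IsNB G l w)).card := by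
  unfold nb
  rw [Nat.card_eq_fintype_card, Fintype.card_subtype]

lemma isNB_cons {l : ℕ} {w : Fin (l + 3) → V} : IsNB G (l + 2) w ↔
    G.Adj (w 0) (w 1) ∧ w 0 ≠ w 2 ∧ IsNB G (l + 1) (Fin.tail w) := by
  unfold IsNB Fin.tail
  constructor
  · rintro ⟨h1, h2⟩
    refine ⟨h1 0 1 (by simp), h2 0 2 ?_, ?_, ?_⟩
    · simp only [Fin.val_zero, zero_add]
      rfl
    · intro i j hij
      exact h1 _ _ (by simp only [Fin.val_succ]; omega)
    · intro i j hij
      exact h2 _ _ (by simp only [Fin.val_succ]; omega)
  · rintro ⟨h0, h02, h1, h2⟩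
    constructor
    · intro i j
      refine Fin.cases ?_ (fun i' => ?_) i
      · intro hj
        have : j = 1 := Fin.ext (by simp only [Fin.val_zero] at hj; rw [hj]; rfl)
        rw [this]; exact h0
      · refine Fin.cases ?_ (fun j' => ?_) j
        · intro hj; simp at hj
        · intro hj
          exact h1 i' j' (by simp only [Fin.val_succ] at hj; omega)
    · intro i j
      refine Fin.cases ?_ (fun i' => ?_) i
      · intro hj
        have : j = 2 := Fin.ext (by simp only [Fin.val_zero] at hj; rw [hj]; rfl)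
        rw [this]; exact h02
      · refine Fin.cases ?_ (fun j' => ?_) j
        · intro hj; simp at hj
        · intro hj
          exact h2 i' j' (by simp only [Fin.val_succ] at hj; omega)

open Classical in
lemma card_from : ∀ (l : ℕ) (u v : V),
    (univ.filter (fun w : Fin (l + 2) → V => IsNB G (l + 1) w ∧ w 0 = u ∧ w 1 = v)).card =
      if G.Adj u v then cnt G l u v else 0 := by
  intro l
  induction l with
  | zero =>
    intro u v
    by_cases h : G.Adj u v
    · rw [if_pos h]
      have : (univ.filter (fun w : Fin 2 → V => IsNB G 1 w ∧ w 0 = u ∧ w 1 = v)) = {![u, v]} := by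
        ext w
        simp only [mem_filter, mem_univ, true_and, mem_singleton]
        constructor
        · rintro ⟨_, h0, h1⟩
          funext i
          fin_cases i
          · exact h0
          · exact h1
        · rintro rfl
          refine ⟨⟨?_, ?_⟩, rfl, rfl⟩
          · intro i j hij
            have hi : i = 0 := Fin.ext (by have := j.isLt; simp only [Fin.val_zero]; omega)
            have hj : j = 1 := Fin.ext (by rw [hij, hi]; rfl)
            subst hi hj
            exact h
          · intro i j hij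
            have := j.isLt
            omega
      rw [this, card_singleton]
      rfl
    · rw [if_neg h, card_eq_zero]
      apply filter_eq_empty_iff.2
      rintro w _ ⟨⟨h1, _⟩, h0, h1'⟩
      apply h
      rw [← h0, ← h1']
      exact h1 0 1 rfl
  | succ l ih =>
    intro u v
    rw [card_eq_sum_card_fiberwise (f := fun w : Fin (l + 3) → V => w 2) (t := univ) (by simp)]
    by_cases h : G.Adj u v
    · rw [if_pos h]
      simp only [cnt]
      rw [sum_filter]
      apply sum_congr rfl
      intro x _
      by_cases hx : x = u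
      · rw [if_neg (by simp [hx]), card_eq_zero]
        apply filter_eq_empty_iff.2
        intro w hw hw2
        simp only [mem_filter, mem_univ, true_and] at hw
        obtain ⟨hw1, hw0, _⟩ := hw
        rw [isNB_cons] at hw1
        exact hw1.2.1 (by rw [hw0, hw2, hx])
      · have key : ((univ.filter (fun w : Fin (l + 3) → V =>
            IsNB G (l + 2) w ∧ w 0 = u ∧ w 1 = v)).filter (fun w => w 2 = x)).card =
            (univ.filter (fun w : Fin (l + 2) → V => IsNB G (l + 1) w ∧ w 0 = v ∧ w 1 = x)).card := by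
          apply card_nbij' (fun w => Fin.tail w) (fun w => Fin.cons u w)
          · intro w hw
            simp only [coe_filter, mem_filter, mem_univ, true_and, Set.mem_setOf_eq] at hw ⊢
            obtain ⟨⟨hw1, hw0, hw1'⟩, hw2⟩ := hw
            rw [isNB_cons] at hw1
            exact ⟨hw1.2.2, hw1', hw2⟩
          · intro w hw
            simp only [coe_filter, mem_filter, mem_univ, true_and, Set.mem_setOf_eq] at hw ⊢
            obtain ⟨hw1, hw0, hw1'⟩ := hw
            refine ⟨⟨?_, rfl, hw0⟩, hw1'⟩
            rw [isNB_cons]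
            refine ⟨?_, ?_, ?_⟩
            · change G.Adj u (w 0)
              rw [hw0]; exact h
            · change u ≠ w 1
              rw [hw1']; exact fun h => hx h.symm
            · rw [Fin.tail_cons]; exact hw1
          · intro w hw
            simp only [coe_filter, mem_filter, mem_univ, true_and, Set.mem_setOf_eq] at hw
            have h0 : u = w 0 := hw.1.2.1.symm
            rw [h0]
            exact Fin.cons_self_tail w
          · intro w _
            exact Fin.tail_cons _ _
        rw [key, ih v x]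
        by_cases hvx : G.Adj v x
        · rw [if_pos hvx, if_pos ⟨hvx, hx⟩]
        · rw [if_neg hvx, if_neg (fun h => hvx h.1)]
    · rw [if_neg h]
      apply sum_eq_zero
      intro x _
      rw [card_eq_zero]
      apply filter_eq_empty_iff.2
      intro w hw _
      simp only [mem_filter, mem_univ, true_and] at hw
      obtain ⟨hw1, hw0, hw1'⟩ := hw
      rw [isNB_cons] at hw1
      apply h
      rw [← hw0, ← hw1']
      exact hw1.1

open Classical in
theorem nb_succ (l : ℕ) : nb G (l + 1) = ∑ u, ∑ v ∈ univ.filter (fun v => G.Adj u v), cnt G l u v := by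
  rw [nb_eq_card]
  rw [card_eq_sum_card_fiberwise (f := fun w : Fin (l + 2) → V => w 0) (t := univ) (by simp)]
  apply sum_congr rfl
  intro u _
  rw [card_eq_sum_card_fiberwise (f := fun w : Fin (l + 2) → V => w 1) (t := univ) (by simp)]
  rw [sum_filter]
  apply sum_congr rfl
  intro v _
  rw [← card_from G l u v, filter_filter, filter_filter]

/-- submultiplicativity -/
theorem nb_add (k l : ℕ) : nb G (k + l) ≤ nb G k * nb G l := by
  classical
  unfold nb
  rw [← Nat.card_prod]
  let f : {w : Fin (k + l + 1) → V // IsNB G (k + l) w} →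
      {w : Fin (k + 1) → V // IsNB G k w} × {w : Fin (l + 1) → V // IsNB G l w} := fun w =>
    (⟨fun i => w.1 ⟨i.val, by omega⟩, by
        refine ⟨fun i j hij => w.2.1 _ _ hij, fun i j hij => w.2.2 _ _ hij⟩⟩,
     ⟨fun i => w.1 ⟨k + i.val, by omega⟩, by
        refine ⟨fun i j hij => w.2.1 _ _ (by simp only; omega),
          fun i j hij => w.2.2 _ _ (by simp only; omega)⟩⟩)
  apply Nat.card_le_card_of_injective f
  intro w w' h
  apply Subtype.ext
  funext i
  have h1 := congrArg Prod.fst h
  have h2 := congrArg Prod.snd h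
  by_cases hi : i.val < k + 1
  · have h3 := congrFun (congrArg Subtype.val h1) ⟨i.val, hi⟩
    exact h3
  · have h3 := congrFun (congrArg Subtype.val h2) ⟨i.val - k, by omega⟩
    have h4 : (⟨k + (i.val - k), by omega⟩ : Fin (k + l + 1)) = i := Fin.ext (by simp only; omega)
    simp only [f] at h3
    rw [h4] at h3
    exact h3

/-- the growth rate exists as a limit -/
theorem tendsto_root (hpos : ∀ l, 1 ≤ nb G l) : Tendsto (root G) atTop (nhds (rho G)) := by
  have hsub : Subadditive (fun l => Real.log (nb G l)) := by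
    intro k l
    have h1 := nb_add G k l
    have hk : (0 : ℝ) < nb G k := by exact_mod_cast hpos k
    have hl : (0 : ℝ) < nb G l := by exact_mod_cast hpos l
    have hkl : (0 : ℝ) < nb G (k + l) := by exact_mod_cast hpos (k + l)
    rw [← Real.log_mul hk.ne' hl.ne']
    apply Real.log_le_log hkl
    exact_mod_cast h1
  have hbdd : BddBelow (Set.range fun n : ℕ => Real.log (nb G n) / n) := by
    refine ⟨0, ?_⟩
    rintro _ ⟨n, rfl⟩
    apply div_nonneg (Real.log_nonneg (by exact_mod_cast hpos n)) (Nat.cast_nonneg n)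
  have h1 := hsub.tendsto_lim hbdd
  have h2 : Tendsto (fun n : ℕ => Real.exp (Real.log (nb G n) / n)) atTop
      (nhds (Real.exp hsub.lim)) := (Real.continuous_exp.tendsto _).comp h1
  have h3 : (fun n : ℕ => Real.exp (Real.log (nb G n) / n)) = root G := by
    funext n
    unfold root
    rw [Real.rpow_def_of_pos (by exact_mod_cast hpos n), div_eq_mul_inv]
  rw [h3] at h2
  exact tendsto_nhds_limUnder ⟨_, h2⟩

lemma one_le_nb {r : ℝ} (hr : 0 < r) (h : ∀ l, r ^ l ≤ nb G (l + 1)) : ∀ l, 1 ≤ nb G l := by
  intro l
  rcases Nat.eq_zero_or_pos l with rfl | hl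
  · by_contra hcon
    have h0 : nb G 0 = 0 := by omega
    have h1 := nb_add G 0 1
    rw [h0, zero_mul] at h1
    have h2 := h 0
    have h3 : nb G (0 + 1) = 0 := Nat.le_zero.1 h1
    rw [h3] at h2
    norm_num at h2
  · obtain ⟨l', rfl⟩ : ∃ l', l = l' + 1 := ⟨l - 1, by omega⟩
    have h1 := h l'
    have h2 : (0 : ℝ) < nb G (l' + 1) := lt_of_lt_of_le (by positivity) h1
    exact_mod_cast h2

/-- lower bound for the growth rate -/
theorem le_rho {r : ℝ} (hr : 0 < r) (h : ∀ l, r ^ l ≤ nb G (l + 1)) : r ≤ rho G := by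
  have hpos : ∀ l, 1 ≤ nb G l := one_le_nb G hr h
  have hT := tendsto_root G hpos
  have hT2 : Tendsto (fun l : ℕ => root G (l + 1)) atTop (nhds (rho G)) :=
    hT.comp (tendsto_add_atTop_nat 1)
  -- the comparison sequence
  have hS : Tendsto (fun l : ℕ => r ^ ((l : ℝ) / ((l : ℝ) + 1))) atTop (nhds r) := by
    have h1 : Tendsto (fun l : ℕ => (l : ℝ) / ((l : ℝ) + 1)) atTop (nhds 1) :=
      tendsto_natCast_div_add_atTop (1 : ℝ)
    have h2 := (Real.continuousAt_const_rpow hr.ne' (b := 1)).tendsto.comp h1
    rw [Real.rpow_one] at h2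
    exact h2
  refine le_of_tendsto_of_tendsto' hS hT2 ?_
  intro l
  unfold root
  have h1 : r ^ ((l : ℝ) / ((l : ℝ) + 1)) = (r ^ l) ^ (((l + 1 : ℕ) : ℝ)⁻¹) := by
    rw [← Real.rpow_natCast, ← Real.rpow_mul hr.le]
    push_cast
    rw [div_eq_mul_inv]
  rw [h1]
  exact Real.rpow_le_rpow (by positivity) (h l) (by positivity)

/-- upper bound for the growth rate -/
theorem rho_le {r C : ℝ} (hr : 0 < r) (hC : 0 < C) (hpos : ∀ l, 1 ≤ nb G l)
    (h : ∀ l, (nb G (l + 1) : ℝ) ≤ C * r ^ l) : rho G ≤ r := by
  have hT := tendsto_root G hpos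
  have hT2 : Tendsto (fun l : ℕ => root G (l + 1)) atTop (nhds (rho G)) :=
    hT.comp (tendsto_add_atTop_nat 1)
  have hS : Tendsto (fun l : ℕ => C ^ (((l : ℝ) + 1)⁻¹) * r ^ ((l : ℝ) / ((l : ℝ) + 1))) atTop
      (nhds r) := by
    have h1 : Tendsto (fun l : ℕ => (l : ℝ) / ((l : ℝ) + 1)) atTop (nhds 1) :=
      tendsto_natCast_div_add_atTop (1 : ℝ)
    have h2 := (Real.continuousAt_const_rpow hr.ne' (b := 1)).tendsto.comp h1
    have h3 : Tendsto (fun l : ℕ => ((l : ℝ) + 1)⁻¹) atTop (nhds 0) := by
      have := tendsto_one_div_add_atTop_nhds_zero_nat (𝕜 := ℝ)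
      simpa using this
    have h4 := (Real.continuousAt_const_rpow hC.ne' (b := 0)).tendsto.comp h3
    have h5 := h4.mul h2
    rw [Real.rpow_one, Real.rpow_zero, one_mul] at h5
    exact h5
  refine le_of_tendsto_of_tendsto' hT2 hS ?_
  intro l
  unfold root
  have h1 : C ^ (((l : ℝ) + 1)⁻¹) * r ^ ((l : ℝ) / ((l : ℝ) + 1)) =
      (C * r ^ l) ^ (((l + 1 : ℕ) : ℝ)⁻¹) := by
    rw [Real.mul_rpow hC.le (by positivity), ← Real.rpow_natCast, ← Real.rpow_mul hr.le]
    push_cast
    rw [div_eq_mul_inv]
  rw [h1]
  exact Real.rpow_le_rpow (by positivity) (h l) (by positivity)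

end Q109.Rho
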