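import Mathlib

/-! Non-backtracking walks and the growth rate of the universal cover. -/

set_option autoImplicit false

namespace Q109.Rho

open Filter

variable {V : Type}

/-- `w` is a non-backtracking walk with `l` edges in `G`: consecutive vertices are adjacent, and
vertices at distance two along the walk are different. -/
def IsNB (G : SimpleGraph V) (l : ℕ) (w : Fin (l + 1) → V) : Prop :=
  (∀ i j : Fin (l + 1), j.val = i.val + 1 → G.Adj (w i) (w j)) ∧
  (∀ i j : Fin (l + 1), j.val = i.val + 2 → w i ≠ w j)

/-- the number of non-backtracking walks with `l` edges -/
noncomputable def nb (G : SimpleGraph V) (l : ℕ) : ℕ := Nat.card {w : Fin (l + 1) → V // IsNB G l w}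

/-- the `l`-th root of the number of non-backtracking walks with `l` edges -/
noncomputable def root (G : SimpleGraph V) (l : ℕ) : ℝ := (nb G l : ℝ) ^ ((l : ℝ)⁻¹)

/-- the growth rate of the universal covering tree of `G`: the limit of the `l`-th root of the
number of non-backtracking walks with `l` edges -/
noncomputable def rho (G : SimpleGraph V) : ℝ := limUnder atTop (root G)

/-- the class of connected graphs with as many vertices of degree `2` as of degree `3`, and no
other vertices -/
def InClass (G : SimpleGraph V) : Prop :=
  Finite V ∧ G.Connected ∧ (∀ v, (G.neighborSet v).ncard = 2 ∨ (G.neighborSet v).ncard = 3) ∧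
  {v | (G.neighborSet v).ncard = 2}.ncard = {v | (G.neighborSet v).ncard = 3}.ncard

/-- the complete graph on four vertices minus one edge -/
def K4minus : SimpleGraph (Fin 4) := (⊤ : SimpleGraph (Fin 4)).deleteEdges {s(2, 3)}

end Q109.Rho
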