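import Pool.Agent.Q109.Rho.Main

/-! The extremal graph `K4minus` and the final statement. -/

set_option autoImplicit false

namespace Q109.Rho

open Finset Filter Real

theorem nb_le {V : Type} [Fintype V] [DecidableEq V] (G : SimpleGraph V) (l : ℕ) {B : ℝ}
    (hB : 0 ≤ B) (h : ∀ u v, v ∈ nbr G u → (cnt G l u v : ℝ) ≤ B) :
    (nb G (l + 1) : ℝ) ≤ (Fintype.card V) * ((Fintype.card V) * B) := by
  classical
  rw [nb_succ]
  push_cast
  have h1 : ∀ u ∈ (univ : Finset V), ∑ v ∈ univ.filter (fun v => G.Adj u v), (cnt G l u v : ℝ) ≤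
      (Fintype.card V) * B := by
    intro u _
    have h2 : ∑ v ∈ univ.filter (fun v => G.Adj u v), (cnt G l u v : ℝ) ≤
        ∑ v ∈ univ.filter (fun v => G.Adj u v), B := by
      apply sum_le_sum
      intro v hv
      simp only [mem_filter, mem_univ, true_and] at hv
      exact h u v ((mem_nbr _).2 hv)
    refine h2.trans ?_
    rw [sum_const, nsmul_eq_mul]
    apply mul_le_mul_of_nonneg_right _ hB
    exact_mod_cast card_le_univ _
  have h3 := sum_le_sum h1
  rw [sum_const, nsmul_eq_mul, card_univ] at h3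
  exact h3

lemma adj_iff (a b : Fin 4) : K4minus.Adj a b ↔
    a ≠ b ∧ ¬ ((a = 2 ∧ b = 3) ∨ (a = 3 ∧ b = 2)) := by
  unfold K4minus
  rw [SimpleGraph.deleteEdges_adj, SimpleGraph.top_adj, Set.mem_singleton_iff, Sym2.eq_iff]

instance : DecidableRel K4minus.Adj := fun a b => decidable_of_iff _ (adj_iff a b).symm

lemma nbr_K (v : Fin 4) : nbr K4minus v =
    univ.filter (fun w => v ≠ w ∧ ¬ ((v = 2 ∧ w = 3) ∨ (v = 3 ∧ w = 2))) := by
  ext w
  rw [mem_nbr, adj_iff]
  simp

/-- the Perron eigenvector of the non-backtracking matrix of `K4minus` -/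
noncomputable def phi (u v : Fin 4) : ℝ :=
  if u < 2 then (if v < 2 then r0 ^ 2 - 1 else 1) else r0

lemma phi_pos (u v : Fin 4) : 1 ≤ phi u v ∧ phi u v ≤ 2 := by
  have h1 := r0_gt
  have h2 := r0_lt
  unfold phi
  split_ifs
  · constructor <;> nlinarith
  · constructor <;> norm_num
  · constructor <;> linarith

lemma phi_step (u v : Fin 4) (h : v ∈ nbr K4minus u) :
    ∑ w ∈ (nbr K4minus v).erase u, phi v w = r0 * phi u v := by
  have h3 := r0_eq
  have e : (nbr K4minus v).erase u =
      univ.filter (fun w => (v ≠ w ∧ ¬ ((v = 2 ∧ w = 3) ∨ (v = 3 ∧ w = 2))) ∧ w ≠ u) := by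
    ext w
    rw [nbr_K]
    simp only [mem_erase, mem_filter, mem_univ, true_and]
    tauto
  rw [e, sum_filter, Fin.sum_univ_four]
  rw [nbr_K] at h
  have h4 : r0 * (r0 ^ 2 - 1) = 2 := by linarith [h3, (by ring : r0 * (r0 ^ 2 - 1) = r0 ^ 3 - r0)]
  have h5 : r0 * r0 = r0 ^ 2 := by ring
  revert h
  fin_cases u <;> fin_cases v <;> intro h <;> simp [phi] at h ⊢ <;> linarith

lemma cnt_le : ∀ (l : ℕ) (u v : Fin 4), v ∈ nbr K4minus u →
    (cnt K4minus l u v : ℝ) ≤ phi u v * r0 ^ l := by
  intro l
  induction l with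
  | zero =>
    intro u v _
    simp only [cnt, Nat.cast_one, pow_zero, mul_one]
    exact (phi_pos u v).1
  | succ l ih =>
    intro u v huv
    have h1 : cnt K4minus (l + 1) u v = ∑ w ∈ (nbr K4minus v).erase u, cnt K4minus l v w := by
      rw [cnt_succ]
    rw [h1]
    push_cast
    calc ∑ w ∈ (nbr K4minus v).erase u, (cnt K4minus l v w : ℝ)
        ≤ ∑ w ∈ (nbr K4minus v).erase u, phi v w * r0 ^ l := by
          apply sum_le_sum
          intro w hw
          exact ih v w (mem_of_mem_erase hw)
      _ = r0 * phi u v * r0 ^ l := by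
          rw [← sum_mul, phi_step u v huv]
      _ = phi u v * r0 ^ (l + 1) := by rw [pow_succ]; ring

lemma card_K (v : Fin 4) : (nbr K4minus v).card = if v < 2 then 3 else 2 := by
  rw [nbr_K]
  revert v
  decide

lemma hdeg_K : ∀ v, (nbr K4minus v).card = 2 ∨ (nbr K4minus v).card = 3 := by
  intro v
  rw [card_K]
  split_ifs
  · exact Or.inr rfl
  · exact Or.inl rfl

lemma hcard_K : (univ.filter (fun v => (nbr K4minus v).card = 2)).card =
      (univ.filter (fun v => (nbr K4minus v).card = 3)).card := by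
  simp only [card_K]
  decide

theorem upper_K (l : ℕ) : (nb K4minus (l + 1) : ℝ) ≤ 32 * r0 ^ l := by
  have hp : 0 < r0 ^ l := pow_pos r0_pos l
  have h := nb_le K4minus l (B := 2 * r0 ^ l) (by positivity) (by
    intro u v huv
    refine (cnt_le l u v huv).trans ?_
    exact mul_le_mul_of_nonneg_right (phi_pos u v).2 hp.le)
  refine h.trans (le_of_eq ?_)
  rw [Fintype.card_fin]
  push_cast
  ring

theorem rho_K : rho K4minus = r0 := by
  have hl := lower K4minus hdeg_K hcard_K
  apply le_antisymm
  · exact rho_le K4minus r0_pos (by norm_num : (0 : ℝ) < 32) (one_le_nb K4minus r0_pos hl) upper_K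
  · exact le_rho K4minus r0_pos hl

lemma conn_K : K4minus.Connected := by
  have h0 : ∀ v : Fin 4, K4minus.Reachable 0 v := by
    intro v
    by_cases h : v = 0
    · rw [h]
    · exact SimpleGraph.Adj.reachable ((adj_iff 0 v).2 ⟨fun h' => h h'.symm, by
        rintro (⟨h', _⟩ | ⟨h', _⟩) <;> exact absurd h' (by decide)⟩)
  exact ⟨fun a b => (h0 a).symm.trans (h0 b)⟩

theorem inClass_K : InClass K4minus := by
  refine ⟨inferInstance, conn_K, ?_, ?_⟩
  · intro v
    rw [card_nbr]
    exact hdeg_K v
  · have h := hcard_K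
    rw [← Set.ncard_coe_finset, ← Set.ncard_coe_finset] at h
    simp only [card_nbr]
    simpa using h

/-- **The minimum growth rate.** Over all connected graphs with as many vertices of degree two as
of degree three (and no others), the growth rate of the universal covering tree exists as a limit
and is at least that of `K4` minus an edge, which is the real root of `x ^ 3 = x + 2`. -/
theorem main : (∀ (V : Type) (G : SimpleGraph V), InClass G →
      Tendsto (root G) atTop (nhds (rho G)) ∧ rho K4minus ≤ rho G) ∧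
    InClass K4minus ∧ 0 < rho K4minus ∧ rho K4minus ^ 3 = rho K4minus + 2 := by
  refine ⟨?_, inClass_K, by rw [rho_K]; exact r0_pos, by rw [rho_K]; exact r0_eq⟩
  intro V G hG
  classical
  obtain ⟨hfin, hconn, hdeg, hcard⟩ := hG
  have := Fintype.ofFinite V
  have : Nonempty V := hconn.nonempty
  have hdeg' : ∀ v, (nbr G v).card = 2 ∨ (nbr G v).card = 3 := by
    intro v
    rw [← card_nbr]
    exact hdeg v
  have hcard' : (univ.filter (fun v => (nbr G v).card = 2)).card =
      (univ.filter (fun v => (nbr G v).card = 3)).card := by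
    rw [← Set.ncard_coe_finset, ← Set.ncard_coe_finset]
    simp only [card_nbr] at hcard
    simpa using hcard
  have hl := lower G hdeg' hcard'
  refine ⟨tendsto_root G (one_le_nb G r0_pos hl), ?_⟩
  rw [rho_K]
  exact le_rho G r0_pos hl

end Q109.Rho
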