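import Mathlib

/-! Constants and the local entropy inequality at a vertex of degree three. -/

set_option autoImplicit false

namespace Q109.Rho

open Real

lemma exists_r0 : ∃ r : ℝ, 1.52137 < r ∧ r < 1.52138 ∧ r ^ 3 = r + 2 := by
  have hc : ContinuousOn (fun x : ℝ => x ^ 3 - x - 2) (Set.Icc 1.52137 1.52138) := by fun_prop
  have h := intermediate_value_Ioo (by norm_num : (1.52137 : ℝ) ≤ 1.52138) hc
  have h0 : (0 : ℝ) ∈ Set.Ioo ((1.52137 : ℝ) ^ 3 - 1.52137 - 2) ((1.52138 : ℝ) ^ 3 - 1.52138 - 2) := by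
    constructor <;> norm_num
  obtain ⟨r, hr, hr2⟩ := h h0
  exact ⟨r, hr.1, hr.2, by simp only at hr2; linarith⟩

/-- the real root of `x ^ 3 = x + 2` -/
noncomputable def r0 : ℝ := Classical.choose exists_r0

lemma r0_gt : 1.52137 < r0 := (Classical.choose_spec exists_r0).1
lemma r0_lt : r0 < 1.52138 := (Classical.choose_spec exists_r0).2.1
lemma r0_eq : r0 ^ 3 = r0 + 2 := (Classical.choose_spec exists_r0).2.2
lemma r0_pos : 0 < r0 := by have := r0_gt; linarith

/-- logarithm of the growth rate -/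
noncomputable def h0 : ℝ := log r0

lemma h0_pos : 0 < h0 := log_pos (by have := r0_gt; linarith)

lemma h0_le : h0 ≤ 0.41966 := by
  have h1 : 5 * h0 = log (r0 ^ 5) := by
    rw [log_pow]; rfl
  have h2 : r0 ^ 5 ≤ 8 * 1.01883 := by
    have h3 : r0 ^ 5 ≤ 1.52138 ^ 5 := pow_le_pow_left₀ r0_pos.le r0_lt.le 5
    refine h3.trans ?_
    norm_num
  have h3 : log (r0 ^ 5) ≤ log (8 * 1.01883) := log_le_log (pow_pos r0_pos 5) h2
  have h4 : log (8 * 1.01883 : ℝ) = 3 * log 2 + log 1.01883 := by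
    rw [log_mul (by norm_num) (by norm_num)]
    have : (8 : ℝ) = 2 ^ 3 := by norm_num
    rw [this, log_pow]
    norm_num
  have h5 : log (1.01883 : ℝ) ≤ 1.01883 - 1 := log_le_sub_one_of_pos (by norm_num)
  have h6 := log_two_lt_d9
  linarith

/-- weight of an edge joining two vertices of degree three -/
noncomputable def al : ℝ := 4 / (r0 + 2)

lemma al_ge : 1.1359 ≤ al := by
  unfold al
  rw [le_div_iff₀ (by have := r0_pos; linarith)]
  have := r0_lt
  linarith

lemma al_le : al ≤ 1.136 := by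
  unfold al
  rw [div_le_iff₀ (by have := r0_pos; linarith)]
  have := r0_gt
  linarith

lemma al_eq : al / 2 = 2 / r0 ^ 3 := by
  unfold al
  rw [r0_eq]
  have := r0_pos
  field_simp
  norm_num

lemma one_sub_al : 1 - al / 2 = 1 / r0 ^ 2 := by
  rw [al_eq]
  have h := r0_pos
  have h2 := r0_eq
  field_simp
  linarith

/-- classes of edges: both ends of degree three; on a suspended path of length two; on a longer
suspended path -/
inductive Cls
  | one
  | two
  | long
deriving DecidableEq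

/-- weight of a class -/
noncomputable def Cls.mu : Cls → ℝ
  | .one => al
  | .two => 1
  | .long => 7 / 8

/-- length (at most three) of a class -/
noncomputable def Cls.len : Cls → ℝ
  | .one => 1
  | .two => 2
  | .long => 3

/-- the additive constant -/
noncomputable def cc : ℝ := 0.4405

lemma Cls.mu_pos (a : Cls) : 0 < a.mu := by
  have := al_ge
  cases a <;> simp only [Cls.mu] <;> linarith

/-- Jensen for the logarithm of a sum -/
lemma log_add_ge {X Y q1 q2 m : ℝ} (hX : 0 < X) (hY : 0 < Y) (h1 : 0 < q1) (h2 : 0 < q2)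
    (hm : q1 + q2 = m) :
    q1 * log X + q2 * log Y - q1 * log (q1 / m) - q2 * log (q2 / m) ≤ m * log (X + Y) := by
  have hmpos : 0 < m := by linarith
  have hXY : 0 < X + Y := by linarith
  -- `log (X m / (q1 (X + Y))) ≤ X m / (q1 (X + Y)) - 1`
  have e1 : q1 * (log X + log m - log q1 - log (X + Y)) ≤ X * m / (X + Y) - q1 := by
    have h3 : log (X * m / (q1 * (X + Y))) ≤ X * m / (q1 * (X + Y)) - 1 :=
      log_le_sub_one_of_pos (by positivity)
    rw [log_div (by positivity) (by positivity), log_mul hX.ne' hmpos.ne',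
      log_mul h1.ne' hXY.ne'] at h3
    have h4 := mul_le_mul_of_nonneg_left h3 h1.le
    have h5 : q1 * (X * m / (q1 * (X + Y)) - 1) = X * m / (X + Y) - q1 := by
      field_simp
    rw [h5] at h4
    linarith
  have e2 : q2 * (log Y + log m - log q2 - log (X + Y)) ≤ Y * m / (X + Y) - q2 := by
    have h3 : log (Y * m / (q2 * (X + Y))) ≤ Y * m / (q2 * (X + Y)) - 1 :=
      log_le_sub_one_of_pos (by positivity)
    rw [log_div (by positivity) (by positivity), log_mul hY.ne' hmpos.ne',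
      log_mul h2.ne' hXY.ne'] at h3
    have h4 := mul_le_mul_of_nonneg_left h3 h2.le
    have h5 : q2 * (Y * m / (q2 * (X + Y)) - 1) = Y * m / (X + Y) - q2 := by
      field_simp
    rw [h5] at h4
    linarith
  have e3 : X * m / (X + Y) + Y * m / (X + Y) = m := by
    field_simp
  rw [log_div h1.ne' hmpos.ne', log_div h2.ne' hmpos.ne']
  have e4 : m * log (X + Y) = q1 * log (X + Y) + q2 * log (X + Y) := by rw [← hm]; ring
  rw [e4]
  nlinarith [e1, e2, e3]

/-- quadratic lower bound for the entropy -/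
lemma ent_ge {q1 q2 m : ℝ} (h1 : 0 < q1) (h2 : 0 < q2) (hm : q1 + q2 = m) :
    m * log 2 - (q1 - q2) ^ 2 / m ≤ - q1 * log (q1 / m) - q2 * log (q2 / m) := by
  have hmpos : 0 < m := by linarith
  have e1 : q1 * log (2 * (q1 / m)) ≤ q1 * (2 * (q1 / m) - 1) :=
    mul_le_mul_of_nonneg_left (log_le_sub_one_of_pos (by positivity)) h1.le
  have e2 : q2 * log (2 * (q2 / m)) ≤ q2 * (2 * (q2 / m) - 1) :=
    mul_le_mul_of_nonneg_left (log_le_sub_one_of_pos (by positivity)) h2.le
  rw [log_mul (by norm_num) (by positivity)] at e1 e2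
  have e3 : q1 * (2 * (q1 / m) - 1) + q2 * (2 * (q2 / m) - 1) = (q1 - q2) ^ 2 / m := by
    subst hm
    field_simp
    ring
  have e4 : m * log 2 = q1 * log 2 + q2 * log 2 := by rw [← hm]; ring
  rw [e4, ← e3]
  linarith

/-- the general local inequality -/
lemma loc_gen {X Y Z q12 q13 q23 m1 m2 m3 : ℝ} (hX : 0 < X) (hY : 0 < Y) (hZ : 0 < Z)
    (h12 : 0 < q12) (h13 : 0 < q13) (h23 : 0 < q23)
    (e1 : q12 + q13 = m1) (e2 : q12 + q23 = m2) (e3 : q13 + q23 = m3) :
    m1 * log X + m2 * log Y + m3 * log Z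
      + ((- q12 * log (q12 / m1) - q13 * log (q13 / m1))
      + (- q12 * log (q12 / m2) - q23 * log (q23 / m2))
      + (- q13 * log (q13 / m3) - q23 * log (q23 / m3)))
      ≤ m1 * log (Y + Z) + m2 * log (X + Z) + m3 * log (X + Y) := by
  have a1 := log_add_ge hY hZ h12 h13 e1
  have a2 := log_add_ge hX hZ h12 h23 e2
  have a3 := log_add_ge hX hY h13 h23 e3
  have b1 : m1 * log X = q12 * log X + q13 * log X := by rw [← e1]; ring
  have b2 : m2 * log Y = q12 * log Y + q23 * log Y := by rw [← e2]; ring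
  have b3 : m3 * log Z = q13 * log Z + q23 * log Z := by rw [← e3]; ring
  rw [b1, b2, b3]
  linarith

/-- the quadratic version -/
lemma loc_quad {X Y Z m1 m2 m3 : ℝ} (hX : 0 < X) (hY : 0 < Y) (hZ : 0 < Z)
    (h12 : m3 < m1 + m2) (h13 : m2 < m1 + m3) (h23 : m1 < m2 + m3) :
    m1 * log X + m2 * log Y + m3 * log Z + (m1 + m2 + m3) * log 2
      - (m2 - m3) ^ 2 / m1 - (m1 - m3) ^ 2 / m2 - (m1 - m2) ^ 2 / m3
      ≤ m1 * log (Y + Z) + m2 * log (X + Z) + m3 * log (X + Y) := by
  have p12 : 0 < (m1 + m2 - m3) / 2 := by linarith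
  have p13 : 0 < (m1 + m3 - m2) / 2 := by linarith
  have p23 : 0 < (m2 + m3 - m1) / 2 := by linarith
  have e1 : (m1 + m2 - m3) / 2 + (m1 + m3 - m2) / 2 = m1 := by ring
  have e2 : (m1 + m2 - m3) / 2 + (m2 + m3 - m1) / 2 = m2 := by ring
  have e3 : (m1 + m3 - m2) / 2 + (m2 + m3 - m1) / 2 = m3 := by ring
  have h := loc_gen hX hY hZ p12 p13 p23 e1 e2 e3
  have a1 := ent_ge p12 p13 e1
  have a2 := ent_ge p12 p23 e2
  have a3 := ent_ge p13 p23 e3
  have c1 : ((m1 + m2 - m3) / 2 - (m1 + m3 - m2) / 2) ^ 2 = (m2 - m3) ^ 2 := by ring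
  have c2 : ((m1 + m2 - m3) / 2 - (m2 + m3 - m1) / 2) ^ 2 = (m1 - m3) ^ 2 := by ring
  have c3 : ((m1 + m3 - m2) / 2 - (m2 + m3 - m1) / 2) ^ 2 = (m1 - m2) ^ 2 := by ring
  rw [c1] at a1
  rw [c2] at a2
  rw [c3] at a3
  linarith

lemma log_al_half : log (al / 2) = log 2 - 3 * h0 := by
  rw [al_eq, log_div (by norm_num) (by have := r0_pos; positivity), log_pow]
  unfold h0
  norm_num

lemma log_one_sub_al : log (1 - al / 2) = - 2 * h0 := by
  rw [one_sub_al, log_div (by norm_num) (by have := r0_pos; positivity), log_pow, log_one]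
  unfold h0
  norm_num

/-- the entropy of the extremal pair -/
lemma ent_extremal : - (al / 2) * log (al / 2 / 1) - (1 - al / 2) * log ((1 - al / 2) / 1) =
    - (al / 2) * log 2 + (al / 2 + 2) * h0 := by
  rw [div_one, div_one, log_al_half, log_one_sub_al]
  ring

lemma ent_half : - (al / 2) * log (al / 2 / al) - (al / 2) * log (al / 2 / al) = al * log 2 := by
  have h : al / 2 / al = 2⁻¹ := by
    have := al_ge
    field_simp
  rw [h, log_inv]
  ring

/-- weight as a function of the parameter -/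
noncomputable def Cls.mu' (α : ℝ) : Cls → ℝ
  | .one => α
  | .two => 1
  | .long => 7 / 8

/-- numerical inequality -/
lemma num_ge {α h L : ℝ} (g1 : 1.1359 ≤ α) (g2 : α ≤ 1.136) (g3 : h ≤ 0.41966)
    (g4 : 0.6931471 ≤ L) (a b c : Cls)
    (hne : ¬ ((a = .one ∧ b = .two ∧ c = .two) ∨ (a = .two ∧ b = .one ∧ c = .two) ∨
      (a = .two ∧ b = .two ∧ c = .one))) :
    h * (a.mu' α * a.len + b.mu' α * b.len + c.mu' α * c.len) - 0.4405 * (a.len + b.len + c.len)
      + 5 * 0.4405 ≤ (a.mu' α + b.mu' α + c.mu' α) * L - (b.mu' α - c.mu' α) ^ 2 / a.mu' α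
      - (a.mu' α - c.mu' α) ^ 2 / b.mu' α - (a.mu' α - b.mu' α) ^ 2 / c.mu' α := by
  have k1 : 0.6931471 * α ≤ α * L := by nlinarith
  have k2 : h * α ≤ 0.41966 * α := by nlinarith
  have d1 : (α - 1) ^ 2 ≤ 0.018497 := by nlinarith
  have d2 : (α - 7 / 8) ^ 2 ≤ 0.068122 := by nlinarith
  have f1 : (α - 1) ^ 2 / α ≤ 0.016285 := by
    rw [div_le_iff₀ (by linarith)]; linarith
  have f2 : (α - 7 / 8) ^ 2 / α ≤ 0.05998 := by
    rw [div_le_iff₀ (by linarith)]; linarith
  have f3 : (1 - 7 / 8 : ℝ) ^ 2 / α ≤ 0.0138 := by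
    rw [div_le_iff₀ (by linarith)]; norm_num; linarith
  have s1 : (1 - α) ^ 2 = (α - 1) ^ 2 := by ring
  have s2 : (7 / 8 - α) ^ 2 = (α - 7 / 8) ^ 2 := by ring
  have s3 : (7 / 8 - 1 : ℝ) ^ 2 = (1 - 7 / 8) ^ 2 := by ring
  have z : ∀ x : ℝ, (0 : ℝ) ^ 2 / x = 0 := by intro x; norm_num
  cases a <;> cases b <;> cases c <;>
    first
    | (exfalso; apply hne; decide)
    | (clear hne
       simp only [Cls.mu', Cls.len, sub_self, s1, s2, s3, div_one, z]
       linarith)

lemma mu_eq (a : Cls) : a.mu = a.mu' al := by cases a <;> rfl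

/-- the local inequality at a vertex of degree three -/
theorem local3 (a b c : Cls) {X Y Z : ℝ} (hX : 0 < X) (hY : 0 < Y) (hZ : 0 < Z) :
    a.mu * log X + b.mu * log Y + c.mu * log Z
      + (h0 * (a.mu * a.len + b.mu * b.len + c.mu * c.len) - cc * (a.len + b.len + c.len) + 5 * cc)
      ≤ a.mu * log (Y + Z) + b.mu * log (X + Z) + c.mu * log (X + Y) := by
  have g1 := al_ge
  have g2 := al_le
  by_cases hne : ((a = .one ∧ b = .two ∧ c = .two) ∨ (a = .two ∧ b = .one ∧ c = .two) ∨
      (a = .two ∧ b = .two ∧ c = .one))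
  · have E1 := ent_extremal
    have E2 := ent_half
    rcases hne with ⟨rfl, rfl, rfl⟩ | ⟨rfl, rfl, rfl⟩ | ⟨rfl, rfl, rfl⟩
    · have Ex := loc_gen (q12 := al / 2) (q13 := al / 2) (q23 := 1 - al / 2) (m1 := al) (m2 := 1)
        (m3 := 1) hX hY hZ (by linarith) (by linarith) (by linarith) (by ring) (by ring) (by ring)
      simp only [Cls.mu, Cls.len]
      refine le_trans (le_of_eq ?_) Ex
      rw [E1, E2]
      ring
    · have Ex := loc_gen (q12 := al / 2) (q13 := 1 - al / 2) (q23 := al / 2) (m1 := 1) (m2 := al)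
        (m3 := 1) hX hY hZ (by linarith) (by linarith) (by linarith) (by ring) (by ring) (by ring)
      simp only [Cls.mu, Cls.len]
      refine le_trans (le_of_eq ?_) Ex
      have E1' : - (1 - al / 2) * log ((1 - al / 2) / 1) - (al / 2) * log (al / 2 / 1) =
          - (al / 2) * log 2 + (al / 2 + 2) * h0 := by rw [← E1]; ring
      rw [E1, E2, E1']
      ring
    · have Ex := loc_gen (q12 := 1 - al / 2) (q13 := al / 2) (q23 := al / 2) (m1 := 1) (m2 := 1)
        (m3 := al) hX hY hZ (by linarith) (by linarith) (by linarith) (by ring) (by ring) (by ring)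
      simp only [Cls.mu, Cls.len]
      refine le_trans (le_of_eq ?_) Ex
      have E1' : - (1 - al / 2) * log ((1 - al / 2) / 1) - (al / 2) * log (al / 2 / 1) =
          - (al / 2) * log 2 + (al / 2 + 2) * h0 := by rw [← E1]; ring
      rw [E2, E1']
      ring
  · have T := loc_quad (m1 := a.mu) (m2 := b.mu) (m3 := c.mu) hX hY hZ
      (by cases a <;> cases b <;> cases c <;> simp only [Cls.mu] <;> linarith)
      (by cases a <;> cases b <;> cases c <;> simp only [Cls.mu] <;> linarith)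
      (by cases a <;> cases b <;> cases c <;> simp only [Cls.mu] <;> linarith)
    have N := num_ge (h := h0) (L := log 2) g1 g2 h0_le (le_of_lt (by have := log_two_gt_d9; linarith))
      a b c hne
    rw [← mu_eq, ← mu_eq, ← mu_eq] at N
    unfold cc
    linarith

end Q109.Rho
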