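import Pool.Agent.Q109.Rho.Count
import Pool.Agent.Q109.Rho.Num

/-! The lower bound for the growth rate. -/

set_option autoImplicit false

namespace Q109.Rho

open Finset Filter Real

variable {V : Type} [Fintype V] [DecidableEq V] (G : SimpleGraph V)

open Classical in
/-- neighbours as a finset -/
noncomputable def nbr (v : V) : Finset V := univ.filter (fun w => G.Adj v w)

lemma mem_nbr {v w : V} : w ∈ nbr G v ↔ G.Adj v w := by
  classical
  simp [nbr]

lemma mem_nbr_symm {v w : V} : w ∈ nbr G v ↔ v ∈ nbr G w := by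
  rw [mem_nbr, mem_nbr, G.adj_comm]

lemma card_nbr (v : V) : (G.neighborSet v).ncard = (nbr G v).card := by
  classical
  rw [← Set.ncard_coe_finset]
  congr 1
  ext w
  simp [nbr]

/-- a vertex of degree two both of whose neighbours have degree three -/
def Mid (v : V) : Prop := (nbr G v).card = 2 ∧ ∀ w ∈ nbr G v, (nbr G w).card = 3

open Classical in
/-- class of an edge -/
noncomputable def cls (u v : V) : Cls :=
  if (nbr G u).card = 3 ∧ (nbr G v).card = 3 then .one
  else if Mid G u ∨ Mid G v then .two else .long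

lemma cls_comm (u v : V) : cls G u v = cls G v u := by
  have h1 : ((nbr G u).card = 3 ∧ (nbr G v).card = 3) ↔
      ((nbr G v).card = 3 ∧ (nbr G u).card = 3) := and_comm
  have h2 : (Mid G u ∨ Mid G v) ↔ (Mid G v ∨ Mid G u) := or_comm
  unfold cls
  by_cases c1 : (nbr G u).card = 3 ∧ (nbr G v).card = 3
  · rw [if_pos c1, if_pos (h1.1 c1)]
  · rw [if_neg c1, if_neg (fun h => c1 (h1.2 h))]
    by_cases c2 : Mid G u ∨ Mid G v
    · rw [if_pos c2, if_pos (h2.1 c2)]
    · rw [if_neg c2, if_neg (fun h => c2 (h2.2 h))]

lemma cls_of_two {v a : V} (hv : (nbr G v).card = 2) (ha : a ∈ nbr G v) :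
    (Mid G v → cls G v a = .two) ∧ (¬ Mid G v → cls G v a = .long) := by
  have h1 : ¬ ((nbr G v).card = 3 ∧ (nbr G a).card = 3) := by omega
  have h2 : ¬ Mid G a := by
    rintro ⟨_, h⟩
    have := h v ((mem_nbr_symm G).1 ha)
    omega
  unfold cls
  rw [if_neg h1]
  constructor
  · intro h
    rw [if_pos (Or.inl h)]
  · intro h
    rw [if_neg (by tauto)]

lemma sum_swap (f : V → V → ℝ) :
    ∑ u, ∑ v ∈ nbr G u, f u v = ∑ v, ∑ u ∈ nbr G v, f u v := by
  apply sum_comm'
  intro x y
  simp only [mem_univ, true_and, and_true]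
  exact mem_nbr_symm G

lemma cnt_pos (h2 : ∀ v, 2 ≤ (nbr G v).card) : ∀ (l : ℕ) (u v : V), 0 < cnt G l u v := by
  classical
  intro l
  induction l with
  | zero => intro u v; exact Nat.one_pos
  | succ l ih =>
    intro u v
    simp only [cnt]
    apply sum_pos
    · intro w _
      exact ih v w
    · obtain ⟨w, hw, hwu⟩ := exists_mem_ne (h2 v) u
      refine ⟨w, ?_⟩
      simp only [mem_filter, mem_univ, true_and]
      exact ⟨(mem_nbr G).1 hw, hwu⟩

open Classical in
lemma cnt_succ (l : ℕ) (u v : V) : cnt G (l + 1) u v = ∑ w ∈ (nbr G v).erase u, cnt G l v w := by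
  simp only [cnt]
  apply sum_congr _ (fun _ _ => rfl)
  ext w
  simp only [mem_filter, mem_univ, true_and, mem_erase, mem_nbr]
  exact and_comm

/-- gain at a vertex -/
noncomputable def gain (v : V) : ℝ :=
  if (nbr G v).card = 3 then
    5 * cc - ∑ w ∈ nbr G v, (cls G v w).len * (cc - h0 * (cls G v w).mu) else 0

theorem local_step (hdeg : ∀ v, (nbr G v).card = 2 ∨ (nbr G v).card = 3) (l : ℕ) (v : V) :
    ∑ w ∈ nbr G v, (cls G v w).mu * log (cnt G l v w) + gain G v ≤
      ∑ u ∈ nbr G v, (cls G u v).mu * log (cnt G (l + 1) u v) := by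
  classical
  have h2 : ∀ v, 2 ≤ (nbr G v).card := fun v => by rcases hdeg v with h | h <;> omega
  have hpos : ∀ (l : ℕ) (u v : V), (0 : ℝ) < cnt G l u v := fun l u v => by
    exact_mod_cast cnt_pos G h2 l u v
  rcases hdeg v with hv | hv
  · obtain ⟨a, b, hab, hN⟩ := card_eq_two.1 hv
    unfold gain
    rw [if_neg (by omega), add_zero]
    have ha : a ∈ nbr G v := by rw [hN]; simp
    have hb : b ∈ nbr G v := by rw [hN]; simp
    have e1 : cnt G (l + 1) a v = cnt G l v b := by
      rw [cnt_succ, hN]
      have : ({a, b} : Finset V).erase a = {b} := by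
        ext x; simp only [mem_erase, mem_insert, mem_singleton]
        constructor
        · rintro ⟨h, h'⟩; tauto
        · rintro rfl; exact ⟨hab.symm, Or.inr rfl⟩
      rw [this, sum_singleton]
    have e2 : cnt G (l + 1) b v = cnt G l v a := by
      rw [cnt_succ, hN]
      have : ({a, b} : Finset V).erase b = {a} := by
        ext x; simp only [mem_erase, mem_insert, mem_singleton]
        constructor
        · rintro ⟨h, h'⟩; tauto
        · rintro rfl; exact ⟨hab, Or.inl rfl⟩
      rw [this, sum_singleton]
    have e3 : cls G v a = cls G v b := by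
      by_cases hm : Mid G v
      · rw [(cls_of_two G hv ha).1 hm, (cls_of_two G hv hb).1 hm]
      · rw [(cls_of_two G hv ha).2 hm, (cls_of_two G hv hb).2 hm]
    rw [hN, sum_pair hab, sum_pair hab, e1, e2, cls_comm G a v, cls_comm G b v, e3]
    linarith
  · obtain ⟨a, b, c, hab, hac, hbc, hN⟩ := card_eq_three.1 hv
    have e1 : cnt G (l + 1) a v = cnt G l v b + cnt G l v c := by
      rw [cnt_succ, hN]
      have : ({a, b, c} : Finset V).erase a = {b, c} := by
        ext x; simp only [mem_erase, mem_insert, mem_singleton]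
        constructor
        · rintro ⟨h, h'⟩; tauto
        · rintro (rfl | rfl)
          · exact ⟨hab.symm, by tauto⟩
          · exact ⟨hac.symm, by tauto⟩
      rw [this, sum_pair hbc]
    have e2 : cnt G (l + 1) b v = cnt G l v a + cnt G l v c := by
      rw [cnt_succ, hN]
      have : ({a, b, c} : Finset V).erase b = {a, c} := by
        ext x; simp only [mem_erase, mem_insert, mem_singleton]
        constructor
        · rintro ⟨h, h'⟩; tauto
        · rintro (rfl | rfl)
          · exact ⟨hab, by tauto⟩
          · exact ⟨hbc.symm, by tauto⟩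
      rw [this, sum_pair hac]
    have e3 : cnt G (l + 1) c v = cnt G l v a + cnt G l v b := by
      rw [cnt_succ, hN]
      have : ({a, b, c} : Finset V).erase c = {a, b} := by
        ext x; simp only [mem_erase, mem_insert, mem_singleton]
        constructor
        · rintro ⟨h, h'⟩; tauto
        · rintro (rfl | rfl)
          · exact ⟨hac, by tauto⟩
          · exact ⟨hbc, by tauto⟩
      rw [this, sum_pair hab]
    have L := local3 (cls G v a) (cls G v b) (cls G v c) (hpos l v a) (hpos l v b) (hpos l v c)
    unfold gain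
    rw [if_pos hv, hN]
    have s3 : ∀ f : V → ℝ, ∑ x ∈ ({a, b, c} : Finset V), f x = f a + f b + f c := by
      intro f
      rw [sum_insert (by simp [hab, hac]), sum_pair hbc]
      ring
    rw [s3, s3, s3, e1, e2, e3, cls_comm G a v, cls_comm G b v, cls_comm G c v]
    push_cast
    linarith

open Classical in
/-- the demand of a vertex of degree two -/
noncomputable def dem (w : V) : ℝ := if Mid G w then cc - h0 else 2 * (cc - h0 * (7 / 8))

theorem sum_gain (hdeg : ∀ v, (nbr G v).card = 2 ∨ (nbr G v).card = 3)
    (hcard : (univ.filter (fun v => (nbr G v).card = 2)).card =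
      (univ.filter (fun v => (nbr G v).card = 3)).card) :
    h0 * ∑ v, ∑ w ∈ nbr G v, (cls G v w).mu ≤ ∑ v, gain G v := by
  classical
  have hh := h0_le
  have hp := h0_pos
  set val : V → V → ℝ := fun v w => cc - h0 * (cls G v w).mu with hval
  set ind : V → V → ℝ := fun v w => if (nbr G v).card = 3 ∧ (nbr G w).card = 2 then dem G w else 0
    with hind
  have hswap := sum_swap G ind
  -- pointwise at vertices of degree three
  have hA : ∀ v, (nbr G v).card = 3 →
      ∑ w ∈ nbr G v, (cls G v w).len * (cc - h0 * (cls G v w).mu) =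
        ∑ w ∈ nbr G v, val v w + ∑ w ∈ nbr G v, ind v w := by
    intro v hv
    rw [← sum_add_distrib]
    apply sum_congr rfl
    intro w hw
    have hvw : v ∈ nbr G w := (mem_nbr_symm G).1 hw
    simp only [hval, hind]
    rcases hdeg w with h2 | h3
    · rw [if_pos ⟨hv, h2⟩, cls_comm G v w]
      by_cases hm : Mid G w
      · rw [(cls_of_two G h2 hvw).1 hm]
        unfold dem
        rw [if_pos hm]
        simp only [Cls.mu, Cls.len]
        ring
      · rw [(cls_of_two G h2 hvw).2 hm]
        unfold dem
        rw [if_neg hm]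
        simp only [Cls.mu, Cls.len]
        ring
    · rw [if_neg (by omega)]
      have : cls G v w = .one := by
        unfold cls
        rw [if_pos ⟨hv, h3⟩]
      rw [this]
      simp only [Cls.mu, Cls.len]
      ring
  have hB : ∀ w, (nbr G w).card = 2 → ∑ v ∈ nbr G w, ind v w ≤ ∑ v ∈ nbr G w, val w v := by
    intro w hw
    by_cases hm : Mid G w
    · apply sum_le_sum
      intro v hv
      simp only [hval, hind]
      rw [if_pos ⟨hm.2 v hv, hw⟩, (cls_of_two G hw hv).1 hm]
      unfold dem
      rw [if_pos hm]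
      simp only [Cls.mu]
      linarith
    · obtain ⟨a, b, hab, hN⟩ := card_eq_two.1 hw
      have ha : a ∈ nbr G w := by rw [hN]; simp
      have hb : b ∈ nbr G w := by rw [hN]; simp
      have hv1 : ∀ v ∈ nbr G w, val w v = cc - h0 * (7 / 8) := by
        intro v hv
        simp only [hval]
        rw [(cls_of_two G hw hv).2 hm]
        rfl
      have hnot : ¬ ((nbr G a).card = 3 ∧ (nbr G b).card = 3) := by
        rintro ⟨h1, h2⟩
        apply hm
        refine ⟨hw, ?_⟩
        intro v hv
        rw [hN] at hv
        simp only [mem_insert, mem_singleton] at hv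
        rcases hv with rfl | rfl
        · exact h1
        · exact h2
      have hcc : 0 < cc - h0 * (7 / 8) := by unfold cc; linarith
      have hd : dem G w = 2 * (cc - h0 * (7 / 8)) := by
        unfold dem; rw [if_neg hm]
      have hi : ∀ v, ind v w = if (nbr G v).card = 3 then 2 * (cc - h0 * (7 / 8)) else 0 := by
        intro v
        simp only [hind]
        by_cases h : (nbr G v).card = 3
        · rw [if_pos ⟨h, hw⟩, if_pos h, hd]
        · rw [if_neg (fun h' => h h'.1), if_neg h]
      rw [sum_congr rfl (fun v _ => hi v), sum_congr rfl hv1, hN, sum_pair hab, sum_pair hab]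
      by_cases h1 : (nbr G a).card = 3
      · have h2 : ¬ (nbr G b).card = 3 := fun h => hnot ⟨h1, h⟩
        rw [if_pos h1, if_neg h2]
        linarith
      · rw [if_neg h1]
        by_cases h2 : (nbr G b).card = 3
        · rw [if_pos h2]; linarith
        · rw [if_neg h2]; linarith
  -- pointwise combination
  have hC : ∀ v, (if (nbr G v).card = 3 then
      ∑ w ∈ nbr G v, (cls G v w).len * (cc - h0 * (cls G v w).mu) else 0) +
        ∑ u ∈ nbr G v, ind u v ≤ ∑ w ∈ nbr G v, val v w + ∑ w ∈ nbr G v, ind v w := by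
    intro v
    rcases hdeg v with h2 | h3
    · rw [if_neg (by omega), zero_add]
      have : ∑ w ∈ nbr G v, ind v w = 0 := by
        apply sum_eq_zero
        intro w _
        simp only [hind]
        rw [if_neg (by omega)]
      rw [this, add_zero]
      exact hB v h2
    · rw [if_pos h3, hA v h3]
      have : ∑ w ∈ nbr G v, ind w v = 0 := by
        apply sum_eq_zero
        intro w _
        simp only [hind]
        rw [if_neg (by omega)]
      rw [this, add_zero]
  have hD := sum_le_sum (fun v (_ : v ∈ (univ : Finset V)) => hC v)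
  rw [sum_add_distrib, sum_add_distrib, hswap] at hD
  have hE : ∑ v, gain G v = ∑ v, (if (nbr G v).card = 3 then 5 * cc else 0) -
      ∑ v, (if (nbr G v).card = 3 then
      ∑ w ∈ nbr G v, (cls G v w).len * (cc - h0 * (cls G v w).mu) else 0) := by
    rw [← sum_sub_distrib]
    apply sum_congr rfl
    intro v _
    unfold gain
    split_ifs
    · rfl
    · ring
  have hF : ∑ v, ∑ w ∈ nbr G v, val v w = ∑ v, ((nbr G v).card : ℝ) * cc -
      h0 * ∑ v, ∑ w ∈ nbr G v, (cls G v w).mu := by
    rw [mul_sum, ← sum_sub_distrib]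
    apply sum_congr rfl
    intro v _
    simp only [hval]
    rw [sum_sub_distrib, sum_const, nsmul_eq_mul, mul_sum]
  have hG : ∑ v, ((nbr G v).card : ℝ) * cc = ∑ v, (if (nbr G v).card = 3 then 5 * cc else 0) := by
    have e1 : ∀ v, ((nbr G v).card : ℝ) * cc = (if (nbr G v).card = 2 then 2 * cc else 0) +
        (if (nbr G v).card = 3 then 3 * cc else 0) := by
      intro v
      rcases hdeg v with h | h <;> rw [h] <;> norm_num
    rw [sum_congr rfl (fun v _ => e1 v), sum_add_distrib]
    rw [← sum_filter, ← sum_filter, ← sum_filter, sum_const, sum_const, sum_const, hcard]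
    simp only [nsmul_eq_mul]
    ring
  rw [hE, ← hG]
  rw [hF] at hD
  linarith

/-- the lower bound for some dart -/
theorem exists_dart [Nonempty V] (hdeg : ∀ v, (nbr G v).card = 2 ∨ (nbr G v).card = 3)
    (hcard : (univ.filter (fun v => (nbr G v).card = 2)).card =
      (univ.filter (fun v => (nbr G v).card = 3)).card) (l : ℕ) :
    ∃ u v, v ∈ nbr G u ∧ r0 ^ l ≤ cnt G l u v := by
  classical
  have h2 : ∀ v, 2 ≤ (nbr G v).card := fun v => by rcases hdeg v with h | h <;> omega
  set M : ℝ := ∑ v, ∑ w ∈ nbr G v, (cls G v w).mu with hM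
  have hgain := sum_gain G hdeg hcard
  have hF : ∀ l : ℕ, (l : ℝ) * (h0 * M) ≤
      ∑ v, ∑ w ∈ nbr G v, (cls G v w).mu * log (cnt G l v w) := by
    intro l
    induction l with
    | zero =>
      rw [Nat.cast_zero, zero_mul]
      apply le_of_eq
      symm
      apply sum_eq_zero
      intro v _
      apply sum_eq_zero
      intro w _
      simp [cnt]
    | succ l ih =>
      have h1 := sum_le_sum (fun v (_ : v ∈ (univ : Finset V)) => local_step G hdeg l v)
      rw [sum_add_distrib] at h1
      rw [sum_swap G (fun u v => (cls G u v).mu * log (cnt G (l + 1) u v))]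
      push_cast
      linarith
  by_contra hcon
  push Not at hcon
  have hlt : ∀ v, ∀ w ∈ nbr G v, (cls G v w).mu * log (cnt G l v w) <
      (cls G v w).mu * ((l : ℝ) * h0) := by
    intro v w hw
    apply mul_lt_mul_of_pos_left _ (Cls.mu_pos _)
    have h3 := hcon v w hw
    have hp : (0 : ℝ) < cnt G l v w := by exact_mod_cast cnt_pos G h2 l v w
    have h4 := log_lt_log hp h3
    rw [log_pow] at h4
    exact h4
  have hsum : ∑ v, ∑ w ∈ nbr G v, (cls G v w).mu * log (cnt G l v w) <
      ∑ v, ∑ w ∈ nbr G v, (cls G v w).mu * ((l : ℝ) * h0) := by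
    apply sum_lt_sum_of_nonempty univ_nonempty
    intro v _
    apply sum_lt_sum_of_nonempty
    · rw [← card_pos]; have := h2 v; omega
    · exact hlt v
  have heq : ∑ v, ∑ w ∈ nbr G v, (cls G v w).mu * ((l : ℝ) * h0) = (l : ℝ) * (h0 * M) := by
    rw [hM]
    simp only [mul_sum]
    apply sum_congr rfl
    intro v _
    apply sum_congr rfl
    intro w _
    ring
  have := hF l
  linarith

theorem lower [Nonempty V] (hdeg : ∀ v, (nbr G v).card = 2 ∨ (nbr G v).card = 3)
    (hcard : (univ.filter (fun v => (nbr G v).card = 2)).card =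
      (univ.filter (fun v => (nbr G v).card = 3)).card) (l : ℕ) :
    r0 ^ l ≤ nb G (l + 1) := by
  classical
  obtain ⟨u, v, huv, h⟩ := exists_dart G hdeg hcard l
  refine h.trans ?_
  rw [nb_succ]
  have h1 : cnt G l u v ≤ ∑ v ∈ univ.filter (fun v => G.Adj u v), cnt G l u v := by
    apply single_le_sum (f := fun v => cnt G l u v) (fun _ _ => Nat.zero_le _)
    simp only [mem_filter, mem_univ, true_and]
    exact (mem_nbr G).1 huv
  have h2 : ∑ v ∈ univ.filter (fun v => G.Adj u v), cnt G l u v ≤
      ∑ u, ∑ v ∈ univ.filter (fun v => G.Adj u v), cnt G l u v :=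
    single_le_sum (f := fun u => ∑ v ∈ univ.filter (fun v => G.Adj u v), cnt G l u v)
      (fun _ _ => Nat.zero_le _) (mem_univ u)
  exact_mod_cast h1.trans h2

end Q109.Rho
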